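import Pool.Agent.H21.VC.Up

/-!
# MP_6f80dc_co: C3Upper

See `Pool.H21.VC.C3`, `Pool.H21.VC.C3'` in `Pool/Agent/H21/VC/Defs.lean` for the definitions.
-/

set_option autoImplicit false

namespace Pool.Agent.Results.MP_6f80dc_co.C3Upper

/-- `C₃ ≤ 2`. -/
theorem result : Pool.H21.VC.C3 ≤ 2 :=
  Pool.H21.VC.upA

end Pool.Agent.Results.MP_6f80dc_co.C3Upper
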