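import Pool.Agent.H21.VC.LowB

/-!
# MP_6f80dc_co: C3pLower

See `Pool.H21.VC.C3`, `Pool.H21.VC.C3'` in `Pool/Agent/H21/VC/Defs.lean` for the definitions.
-/

set_option autoImplicit false

namespace Pool.Agent.Results.MP_6f80dc_co.C3pLower

/-- The complement of the 7-cycle gives `C₃' ≥ 1.0615`. -/
theorem result : ENNReal.ofReal (10615 / 10000) ≤ Pool.H21.VC.C3' :=
  Pool.H21.VC.lowB

end Pool.Agent.Results.MP_6f80dc_co.C3pLower
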