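import Pool.Agent.H21.VC.Up

/-!
# MP_6f80dc_co: C3pUpper

See `Pool.H21.VC.C3`, `Pool.H21.VC.C3'` in `Pool/Agent/H21/VC/Defs.lean` for the definitions.
-/

set_option autoImplicit false

namespace Pool.Agent.Results.MP_6f80dc_co.C3pUpper

/-- `C₃' ≤ 1.071`. -/
theorem result : Pool.H21.VC.C3' ≤ ENNReal.ofReal (1071 / 1000) :=
  Pool.H21.VC.upB

end Pool.Agent.Results.MP_6f80dc_co.C3pUpper
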